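import Mathlib

set_option autoImplicit false

namespace Pool.Agent.Results.MP_fc8d4d_co.UnboundedGap

/-- The colour code of a vertex `v` under the colouring `c`: its `i`-th entry is the distance from
`v` to the colour class `i`, that is the least distance from `v` to a vertex of colour `i`. -/
noncomputable def code {V : Type*} (G : SimpleGraph V) {k : ℕ} (c : V → Fin k) (v : V) (i : Fin k) :
    ℕ :=
  sInf {d : ℕ | ∃ u : V, c u = i ∧ d = G.dist v u}

/-- `c` is a locating colouring of `G` with exactly `k` (nonempty) colour classes: it is onto,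
proper, and distinct vertices have distinct colour codes. -/
def IsLocating {V : Type*} (G : SimpleGraph V) {k : ℕ} (c : V → Fin k) : Prop :=
  Function.Surjective c ∧ (∀ u v : V, G.Adj u v → c u ≠ c v) ∧ Function.Injective (code G c)

/-- The locating chromatic number: the least number of colours in a locating colouring. -/
noncomputable def chiL {V : Type*} (G : SimpleGraph V) : ℕ :=
  sInf {k : ℕ | ∃ c : V → Fin k, IsLocating G c}

/-- A finite connected graph has a locating colouring (colour all vertices differently). -/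
lemma exists_locating {V : Type*} [Fintype V] (G : SimpleGraph V) (hG : G.Connected) :
    ∃ c : V → Fin (chiL G), IsLocating G c := by
  classical
  have hne : {k : ℕ | ∃ c : V → Fin k, IsLocating G c}.Nonempty := by
    refine ⟨Fintype.card V, (Fintype.equivFin V), (Fintype.equivFin V).surjective, ?_, ?_⟩
    · intro u v huv h
      exact huv.ne ((Fintype.equivFin V).injective h)
    · intro u v huv
      have h := congrFun huv ((Fintype.equivFin V) u)
      have e1 : code G (Fintype.equivFin V) u ((Fintype.equivFin V) u) = 0 := by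
        refine Nat.sInf_eq_zero.2 (Or.inl ⟨u, rfl, ?_⟩)
        simp
      have e2 : code G (Fintype.equivFin V) v ((Fintype.equivFin V) u) = 0 := by
        rw [← h, e1]
      rcases Nat.sInf_eq_zero.1 e2 with h0 | h0
      · obtain ⟨w, hw1, hw2⟩ := h0
        have hwu : w = u := (Fintype.equivFin V).injective hw1
        subst hwu
        exact ((hG.preconnected v w).dist_eq_zero_iff.1 hw2.symm).symm
      · have : G.dist v u ∈ {d : ℕ | ∃ w : V, (Fintype.equivFin V) w = (Fintype.equivFin V) u ∧
          d = G.dist v w} := ⟨u, rfl, rfl⟩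
        rw [h0] at this
        exact absurd this (Set.notMem_empty _)
  exact Nat.sInf_mem hne

/-- Counting colour codes: if all distances are at most `D` then `|V| ≤ (D+1)^χ_L`. -/
lemma card_le {V : Type*} [Fintype V] (G : SimpleGraph V) (hG : G.Connected) (D : ℕ)
    (hD : ∀ u v : V, G.dist u v ≤ D) : Fintype.card V ≤ (D + 1) ^ chiL G := by
  classical
  obtain ⟨c, hc1, _, hc3⟩ := exists_locating G hG
  have hle : ∀ v i, code G c v i < D + 1 := by
    intro v i
    obtain ⟨u, hu⟩ := hc1 i
    have : code G c v i ≤ G.dist v u := Nat.sInf_le ⟨u, hu, rfl⟩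
    exact Nat.lt_succ_of_le (this.trans (hD v u))
  let f : V → (Fin (chiL G) → Fin (D + 1)) := fun v i => ⟨code G c v i, hle v i⟩
  have hf : Function.Injective f := by
    intro u v huv
    apply hc3
    funext i
    have := congrFun huv i
    exact congrArg Fin.val this
  have := Fintype.card_le_of_injective f hf
  simpa using this

/-- If the gap were bounded by `c`, iterated squares of `K_2` would have few colours. -/
lemma iterate (c : ℕ) (h : ∀ (V : Type) (_ : Fintype V) (G : SimpleGraph V), G.Connected →
      chiL (G □ G) < chiL G + c) (j : ℕ) :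
    ∃ (V : Type) (_ : Fintype V) (G : SimpleGraph V), G.Connected ∧
      Fintype.card V = 2 ^ (2 ^ j) ∧ (∀ u v, G.dist u v ≤ 2 ^ j) ∧ chiL G ≤ 2 + c * j := by
  induction j with
  | zero =>
    refine ⟨Fin 2, inferInstance, ⊤, SimpleGraph.connected_top, by simp, ?_, ?_⟩
    · intro u v
      rw [SimpleGraph.dist_top]
      split_ifs <;> simp
    · refine Nat.sInf_le ⟨id, Function.surjective_id, ?_, ?_⟩
      · intro u v huv
        simpa using huv
      · intro u v huv
        by_contra hne
        have h1 : code (⊤ : SimpleGraph (Fin 2)) id u u = 0 :=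
          Nat.sInf_eq_zero.2 (Or.inl ⟨u, rfl, by simp⟩)
        have h2 : code (⊤ : SimpleGraph (Fin 2)) id v u = 0 := by
          rw [← congrFun huv u, h1]
        rcases Nat.sInf_eq_zero.1 h2 with h0 | h0
        · obtain ⟨w, hw1, hw2⟩ := h0
          simp only [id] at hw1
          subst hw1
          rw [SimpleGraph.dist_top] at hw2
          split_ifs at hw2 with h3
          exact hne h3.symm
        · have : (⊤ : SimpleGraph (Fin 2)).dist v u ∈ {d : ℕ | ∃ w : Fin 2, id w = u ∧
            d = (⊤ : SimpleGraph (Fin 2)).dist v w} := ⟨u, rfl, rfl⟩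
          rw [h0] at this
          exact absurd this (Set.notMem_empty _)
  | succ j ih =>
    obtain ⟨V, hV, G, hG, hcard, hdist, hchi⟩ := ih
    refine ⟨V × V, inferInstance, G □ G, hG.boxProd hG, ?_, ?_, ?_⟩
    · rw [Fintype.card_prod, hcard, ← pow_add]
      congr 1
      ring
    · intro u v
      have h1 : ((G □ G).edist u v).toNat ≤ 2 ^ (j + 1) := by
        rw [SimpleGraph.edist_boxProd]
        rw [ENat.toNat_add (SimpleGraph.edist_ne_top_iff_reachable.2 (hG.preconnected _ _))
          (SimpleGraph.edist_ne_top_iff_reachable.2 (hG.preconnected _ _))]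
        have e1 := hdist u.1 v.1
        have e2 := hdist u.2 v.2
        unfold SimpleGraph.dist at e1 e2
        rw [pow_succ]
        omega
      exact h1
    · have := h V hV G hG
      have e : c * (j + 1) = c * j + c := by ring
      omega

/-- Disproof of the conjectured bound, with any constant in place of `3`. -/
theorem result (c : ℕ) : ∃ (V : Type) (_ : Fintype V) (G : SimpleGraph V), G.Connected ∧
    chiL G + c ≤ chiL (G □ G) := by
  by_contra hcon
  push Not at hcon
  obtain ⟨V, hV, G, hG, hcard, hdist, hchi⟩ := iterate c hcon (4 * (16 * (c + 2)))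
  have h1 := card_le G hG _ hdist
  rw [hcard] at h1
  set m := 16 * (c + 2) with hm
  have h2 : (2 ^ (4 * m) + 1) ^ chiL G ≤ (2 ^ (4 * m + 1)) ^ (2 + c * (4 * m)) := by
    calc (2 ^ (4 * m) + 1) ^ chiL G ≤ (2 ^ (4 * m + 1)) ^ chiL G := by
          apply Nat.pow_le_pow_left
          rw [pow_succ]
          have : 1 ≤ 2 ^ (4 * m) := Nat.one_le_two_pow
          omega
      _ ≤ _ := Nat.pow_le_pow_right (Nat.pos_of_ne_zero (by positivity)) hchi
  rw [← pow_mul] at h2
  have h3 := (Nat.pow_le_pow_iff_right (by norm_num : 1 < 2)).1 (h1.trans h2)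
  have h4 : m + 1 ≤ 2 ^ m := Nat.lt_two_pow_self
  have h5 : (m + 1) ^ 4 ≤ 2 ^ (4 * m) := by
    calc (m + 1) ^ 4 ≤ (2 ^ m) ^ 4 := Nat.pow_le_pow_left h4 4
      _ = 2 ^ (4 * m) := by rw [← pow_mul, mul_comm]
  have h6 : (m + 1) ^ 4 ≤ (4 * m + 1) * (2 + c * (4 * m)) := h5.trans h3
  have h7 : (4 * m + 1) * (2 + c * (4 * m)) ≤ 16 * (c + 2) * (m + 1) ^ 2 := by
    nlinarith [Nat.zero_le (c * m), Nat.zero_le (c * m ^ 2), Nat.zero_le m]
  have h8 : (m + 1) ^ 4 ≤ m * (m + 1) ^ 2 := by
    calc (m + 1) ^ 4 ≤ _ := h6
      _ ≤ _ := h7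
      _ = m * (m + 1) ^ 2 := by rw [hm]
  nlinarith [Nat.zero_le m, sq_nonneg (m + 1), pow_pos (Nat.succ_pos m) 2, pow_pos (Nat.succ_pos m) 3]

end Pool.Agent.Results.MP_fc8d4d_co.UnboundedGap
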